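import Pool.Agent.H947R2.DS.Stubs

set_option autoImplicit false
open Finset
open scoped Pointwise

namespace H947DS

/-- the set of near halves -/
def I_T {n : ℕ} (x : Fin n → ℤ) : Finset (Fin n → ℤ) :=
  Fintype.piFinset (fun i => ({x i, x i - Int.sign (x i)} : Finset ℤ))

theorem I_mem {n : ℕ} {x y : Fin n → ℤ} :
    y ∈ I_T x ↔ ∀ i, y i = x i ∨ y i = x i - Int.sign (x i) := by
  simp [I_T, Fintype.mem_piFinset]

theorem I_card {n : ℕ} (x : Fin n → ℤ) : (I_T x).card = 2 ^ (nzZ x) := by
  rw [I_T, Fintype.card_piFinset, nzZ, ← Finset.prod_const, Finset.prod_filter]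
  refine Finset.prod_congr rfl (fun i _ => ?_)
  by_cases h : x i = 0
  · simp [h]
  · rw [if_pos h, Finset.card_pair]
    have : Int.sign (x i) ≠ 0 := by
      simpa [Int.sign_eq_zero_iff_zero] using h
    omega

theorem I_sub {n : ℕ} {S : Finset (Fin n → ℤ)} (hS : BoxAnchored S) {x : Fin n → ℤ} (hx : x ∈ S) :
    I_T x ⊆ S := by
  intro y hy
  rw [I_mem] at hy
  refine hS x hx y (fun i => ?_)
  have hi := hy i
  rcases lt_trichotomy (x i) 0 with h | h | h
  · rw [Int.sign_eq_neg_one_of_neg h] at hi
    omega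
  · rw [h] at hi
    simp at hi
    omega
  · rw [Int.sign_eq_one_of_pos h] at hi
    omega

theorem I_key (a b c d : ℤ) (hc : c = a ∨ c = a - Int.sign a) (hd : d = b ∨ d = b - Int.sign b)
    (h : a + c = b + d) : a = b := by
  rcases lt_trichotomy a 0 with ha | ha | ha <;> rcases lt_trichotomy b 0 with hb | hb | hb
  all_goals first
    | rw [Int.sign_eq_neg_one_of_neg ha] at hc
    | rw [Int.sign_eq_one_of_pos ha] at hc
    | (subst ha; rw [Int.sign_zero] at hc)
  all_goals first
    | rw [Int.sign_eq_neg_one_of_neg hb] at hd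
    | rw [Int.sign_eq_one_of_pos hb] at hd
    | (subst hb; rw [Int.sign_zero] at hd)
  all_goals omega

theorem I_proof : St_I := by
  intro n S hS
  have h1 : ∀ x ∈ S, ((I_T x).image (fun y => x + y)).card = 2 ^ (nzZ x) := by
    intro x _
    rw [Finset.card_image_of_injective _ (add_right_injective x), I_card]
  rw [← Finset.sum_congr rfl h1]
  rw [← Finset.card_biUnion]
  · refine Finset.card_le_card ?_
    intro z hz
    rw [Finset.mem_biUnion] at hz
    obtain ⟨x, hx, hz⟩ := hz
    rw [Finset.mem_image] at hz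
    obtain ⟨y, hy, rfl⟩ := hz
    exact Finset.add_mem_add hx (I_sub hS hx hy)
  · intro x _ y _ hxy
    rw [Function.onFun, Finset.disjoint_left]
    intro z hz hz'
    apply hxy
    rw [Finset.mem_image] at hz hz'
    obtain ⟨c, hc, h2⟩ := hz
    obtain ⟨d, hd, h3⟩ := hz'
    rw [I_mem] at hc hd
    funext i
    have h4 : x i + c i = y i + d i := by
      have := congrFun (h2.trans h3.symm) i
      simpa using this
    exact I_key _ _ _ _ (hc i) (hd i) h4

end H947DS
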